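import Pool.Agent.Q195.BH.ProdK
import Pool.Agent.Q176.SF.Prod

set_option autoImplicit false

/-! # Project BH: independent walkers and the typical binomial weights -/

namespace Pool.Agent.Q195.BH.Binom

open Finset Pool.Agent.Q74.BH
open Pool.Agent.Q74.KP
open Pool.Agent.Q74.SF
open Pool.Agent.Q74.AR (bE bE_choose bE_succ)
open Pool.Agent.Q195.BH.ProdK (SS SS_succ SS_abs)

theorem bE_sq (t : ℕ) : ∀ c : ℝ, bE t (fun k => ((k : ℝ) - c) ^ 2) = ((t : ℝ) / 2 - c) ^ 2 + t / 4 := by
  induction t with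
  | zero => intro c; simp [bE]
  | succ n ih =>
    intro c
    have e : (fun k : ℕ => (((k + 1 : ℕ) : ℝ) - c) ^ 2) = fun k : ℕ => ((k : ℝ) - (c - 1)) ^ 2 := by
      funext k
      push_cast
      ring
    rw [bE_succ, ih, e, ih]
    push_cast
    ring

/-- the binomial weights -/
noncomputable def wt (m o : ℕ) : ℝ := (m.choose o : ℝ) / 2 ^ m

theorem wt_nonneg (m o : ℕ) : 0 ≤ wt m o := by unfold wt; positivity

theorem sum_wt (m : ℕ) : ∑ o ∈ range (m + 1), wt m o = 1 := by
  unfold wt
  rw [← Finset.sum_div]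
  have h := Nat.sum_range_choose m
  have h2 : (∑ o ∈ range (m + 1), (m.choose o : ℝ)) = 2 ^ m := by exact_mod_cast h
  rw [h2]
  exact div_self (by positivity)

theorem typ_sub (K : ℝ) (m : ℕ) : Typ K m ⊆ range (m + 1) := Finset.filter_subset _ _

theorem cheb (m : ℕ) (K : ℝ) (hK : 0 < K) : ∑ o ∈ range (m + 1) \ Typ K m, wt m o ≤ 1 / K ^ 2 := by
  rcases Nat.eq_zero_or_pos m with rfl | hm
  · have h : range (0 + 1) \ Typ K 0 = ∅ := by
      rw [Finset.sdiff_eq_empty_iff_subset]
      intro o ho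
      have : o = 0 := by simpa using ho
      subst this
      simp [Typ]
    rw [h, Finset.sum_empty]
    positivity
  · have hmR : (0 : ℝ) < m := by exact_mod_cast hm
    have h1 := bE_sq m ((m : ℝ) / 2)
    rw [bE_choose, sub_self] at h1
    have h2 : ∑ o ∈ range (m + 1) \ Typ K m, wt m o * (K ^ 2 * m) ≤ (m : ℝ) / 4 := by
      calc ∑ o ∈ range (m + 1) \ Typ K m, wt m o * (K ^ 2 * m)
          ≤ ∑ o ∈ range (m + 1) \ Typ K m, wt m o * ((o : ℝ) - m / 2) ^ 2 := by
            refine Finset.sum_le_sum fun o ho => mul_le_mul_of_nonneg_left ?_ (wt_nonneg _ _)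
            rw [Finset.mem_sdiff, Typ, Finset.mem_filter, not_and, not_le] at ho
            have h3 := ho.2 ho.1
            have h4 : (K * √m) ^ 2 ≤ |(o : ℝ) - m / 2| ^ 2 :=
              pow_le_pow_left₀ (by positivity) h3.le 2
            rw [sq_abs, mul_pow, Real.sq_sqrt hmR.le] at h4
            exact h4
        _ ≤ ∑ o ∈ range (m + 1), wt m o * ((o : ℝ) - m / 2) ^ 2 :=
            Finset.sum_le_sum_of_subset_of_nonneg Finset.sdiff_subset
              fun o _ _ => mul_nonneg (wt_nonneg _ _) (sq_nonneg _)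
        _ = (m : ℝ) / 4 := by
            unfold wt
            rw [h1]
            ring
    rw [← Finset.sum_mul] at h2
    rw [le_div_iff₀ (by positivity)]
    have h5 : (∑ o ∈ range (m + 1) \ Typ K m, wt m o) * K ^ 2 * m ≤ (1 / 4) * m := by
      calc (∑ o ∈ range (m + 1) \ Typ K m, wt m o) * K ^ 2 * m
          = (∑ o ∈ range (m + 1) \ Typ K m, wt m o) * (K ^ 2 * m) := by ring
        _ ≤ _ := h2
        _ = _ := by ring
    have h6 := le_of_mul_le_mul_right h5 hmR
    linarith

theorem binom : S_Binom := by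
  intro k m K hK
  have hδ := cheb m K hK
  set δ := ∑ o ∈ range (m + 1) \ Typ K m, wt m o with hδd
  have hδ0 : 0 ≤ δ := Finset.sum_nonneg fun _ _ => wt_nonneg _ _
  have hT : ∑ o ∈ Typ K m, wt m o ≤ 1 := by
    rw [← sum_wt m]
    exact Finset.sum_le_sum_of_subset_of_nonneg (typ_sub K m) fun _ _ _ => wt_nonneg _ _
  have main : ∀ k : ℕ, ∀ F : (Fin k → ℤ) → ℝ, (∀ z, |F z| ≤ 1) →
      |SS (Typ K m) (wt m) (fun o : ℕ => (o : ℤ)) k F - act k (PP k ^ m) F 0| ≤ k * δ := by
    intro k
    induction k with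
    | zero =>
      intro F _
      have e : PP 0 = 1 := by
        unfold PP
        simp
      rw [e, one_pow, act_one]
      unfold SS
      have h0 : Fintype.piFinset (fun _ : Fin 0 => Typ K m) = {fun l => l.elim0} := by
        ext i
        simp only [Fintype.mem_piFinset, Finset.mem_singleton]
        exact ⟨fun _ => funext fun l => l.elim0, fun _ l => l.elim0⟩
      rw [h0, Finset.sum_singleton]
      have h1 : (fun l : Fin 0 => (((l.elim0 : ℕ)) : ℤ)) = 0 := Subsingleton.elim _ _
      simp only [Finset.univ_eq_empty, Finset.prod_empty, one_mul]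
      rw [h1]
      simp
    | succ k ih =>
      intro F hF
      set A : ℕ → ℝ := fun y => act k (PP k ^ m) (fun z => F (Fin.cons (y : ℤ) z : Fin (k + 1) → ℤ)) 0 with hA
      have hA1 : ∀ y, |A y| ≤ 1 := by
        intro y
        have := Bd_PP (k := k) m (fun z => F (Fin.cons (y : ℤ) z : Fin (k + 1) → ℤ)) 1 (fun z => hF _) 0
        rw [one_mul] at this
        exact this
      have e2 : act (k + 1) (PP (k + 1) ^ m) F 0 = bE m A := by
        have e0 : (0 : Fin (k + 1) → ℤ) = (Fin.cons 0 0 : Fin (k + 1) → ℤ) := by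
          funext j
          refine Fin.cases ?_ (fun j => ?_) j
          · simp
          · simp
        rw [e0, Pool.Agent.Q176.SF.Prod.act_cons]
        simp only [zero_add]
        rfl
      rw [e2, bE_choose, SS_succ]
      have e3 : ∑ y ∈ range (m + 1), (m.choose y : ℝ) / 2 ^ m * A y =
          ∑ y ∈ Typ K m, wt m y * A y + ∑ y ∈ range (m + 1) \ Typ K m, wt m y * A y := by
        have h := Finset.sum_sdiff (f := fun y => wt m y * A y) (typ_sub K m)
        rw [add_comm] at h
        exact h.symm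
      rw [e3]
      have e4 : ∑ x ∈ Typ K m, wt m x * SS (Typ K m) (wt m) (fun o : ℕ => (o : ℤ)) k
            (fun v => F (Fin.cons ((x : ℕ) : ℤ) v : Fin (k + 1) → ℤ)) -
          (∑ y ∈ Typ K m, wt m y * A y + ∑ y ∈ range (m + 1) \ Typ K m, wt m y * A y) =
          ∑ x ∈ Typ K m, wt m x * (SS (Typ K m) (wt m) (fun o : ℕ => (o : ℤ)) k
            (fun v => F (Fin.cons ((x : ℕ) : ℤ) v : Fin (k + 1) → ℤ)) - A x) -
          ∑ y ∈ range (m + 1) \ Typ K m, wt m y * A y := by
        simp only [mul_sub, Finset.sum_sub_distrib]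
        ring
      rw [e4]
      have h1 : |∑ x ∈ Typ K m, wt m x * (SS (Typ K m) (wt m) (fun o : ℕ => (o : ℤ)) k
            (fun v => F (Fin.cons ((x : ℕ) : ℤ) v : Fin (k + 1) → ℤ)) - A x)| ≤ k * δ := by
        refine (Finset.abs_sum_le_sum_abs _ _).trans ?_
        calc ∑ x ∈ Typ K m, |wt m x * (SS (Typ K m) (wt m) (fun o : ℕ => (o : ℤ)) k
              (fun v => F (Fin.cons ((x : ℕ) : ℤ) v : Fin (k + 1) → ℤ)) - A x)|
            ≤ ∑ x ∈ Typ K m, wt m x * (k * δ) := by
              refine Finset.sum_le_sum fun x _ => ?_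
              rw [abs_mul, abs_of_nonneg (wt_nonneg _ _)]
              exact mul_le_mul_of_nonneg_left (ih _ fun z => hF _) (wt_nonneg _ _)
          _ = (∑ x ∈ Typ K m, wt m x) * (k * δ) := by rw [Finset.sum_mul]
          _ ≤ 1 * (k * δ) := mul_le_mul_of_nonneg_right hT (by positivity)
          _ = _ := one_mul _
      have h2 : |∑ y ∈ range (m + 1) \ Typ K m, wt m y * A y| ≤ δ := by
        refine (Finset.abs_sum_le_sum_abs _ _).trans ?_
        refine Finset.sum_le_sum fun y _ => ?_
        rw [abs_mul, abs_of_nonneg (wt_nonneg _ _)]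
        exact mul_le_of_le_one_right (wt_nonneg _ _) (hA1 y)
      refine (abs_sub _ _).trans ((add_le_add h1 h2).trans (le_of_eq ?_))
      push_cast
      ring
  intro F hF
  refine (main k F hF).trans ?_
  rw [div_eq_mul_one_div]
  exact mul_le_mul_of_nonneg_left hδ (Nat.cast_nonneg k)

end Pool.Agent.Q195.BH.Binom
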