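import Pool.Agent.Q74.BH.Stm

set_option autoImplicit false

/-! # Project BH: the mass of the windows in the model -/

namespace Pool.Agent.Q195.BH.Mass

open Finset Pool.Agent.Q74.BH
open Pool.Agent.TH930.EBQ (ones wd words cw sum_words_succ)

theorem card_ones (n : ℕ) : ∀ o, ((words n).filter (fun v => ones v = o)).card = n.choose o := by
  induction n with
  | zero =>
    intro o
    cases o with
    | zero => simp [words, Finset.filter_singleton]
    | succ o => simp [words, Finset.filter_singleton]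
  | succ n ih =>
    intro o
    rw [Finset.card_filter, sum_words_succ, Finset.sum_add_distrib]
    have h0 := ih o
    rw [Finset.card_filter] at h0
    cases o with
    | zero =>
      have h1 : ∑ v ∈ words n, (if ones (true :: v) = 0 then 1 else 0) = 0 := by
        refine Finset.sum_eq_zero fun v _ => ?_
        rw [if_neg]
        rw [Pool.Agent.TH930.EBQ.ones_cons_true]
        omega
      have h2 : ∑ v ∈ words n, (if ones (false :: v) = 0 then 1 else 0) =
          ∑ v ∈ words n, (if ones v = 0 then 1 else 0) := by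
        refine Finset.sum_congr rfl fun v _ => ?_
        rfl
      rw [h1, h2, h0]
      simp
    | succ o =>
      have h3 := ih o
      rw [Finset.card_filter] at h3
      have h1 : ∑ v ∈ words n, (if ones (true :: v) = o + 1 then 1 else 0) =
          ∑ v ∈ words n, (if ones v = o then 1 else 0) := by
        refine Finset.sum_congr rfl fun v _ => ?_
        rw [Pool.Agent.TH930.EBQ.ones_cons_true]
        simp
      have h2 : ∑ v ∈ words n, (if ones (false :: v) = o + 1 then 1 else 0) =
          ∑ v ∈ words n, (if ones v = o + 1 then 1 else 0) := by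
        refine Finset.sum_congr rfl fun v _ => ?_
        rfl
      rw [h1, h2, h0, h3, Nat.choose_succ_succ]

/-- the number of the integers of a window in a class -/
theorem card_class (A B : ℝ) (hAB : A ≤ B) (M r : ℤ) (h0 : 0 ≤ r) (hr : r < M) :
    |(((Ico ⌈A⌉ ⌈B⌉).filter (fun z => z % M = r)).card : ℝ) - (B - A) / M| ≤ 1 := by
  have hM : 0 < M := lt_of_le_of_lt h0 hr
  have hMR : (0 : ℝ) < M := by exact_mod_cast hM
  have h : ((Ico ⌈A⌉ ⌈B⌉).filter (fun z => z % M = r)) =
      (Ico ⌈(A - r) / M⌉ ⌈(B - r) / M⌉).image (fun j => r + M * j) := by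
    ext z
    simp only [Finset.mem_filter, Finset.mem_Ico, Finset.mem_image]
    constructor
    · rintro ⟨⟨h1, h2⟩, h3⟩
      have h4 := Int.emod_add_mul_ediv z M
      rw [h3] at h4
      have h5 : (z : ℝ) = r + M * ((z / M : ℤ) : ℝ) := by exact_mod_cast h4.symm
      refine ⟨z / M, ⟨?_, ?_⟩, h4⟩
      · rw [Int.ceil_le] at h1 ⊢
        rw [div_le_iff₀ hMR]
        linarith
      · rw [Int.lt_ceil] at h2 ⊢
        rw [lt_div_iff₀ hMR]
        linarith
    · rintro ⟨j, ⟨h1, h2⟩, rfl⟩
      rw [Int.ceil_le, div_le_iff₀ hMR] at h1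
      rw [Int.lt_ceil, lt_div_iff₀ hMR] at h2
      refine ⟨⟨?_, ?_⟩, ?_⟩
      · rw [Int.ceil_le]
        push_cast
        linarith
      · rw [Int.lt_ceil]
        push_cast
        linarith
      · rw [Int.add_mul_emod_self_left]
        exact Int.emod_eq_of_lt h0 hr
  have hinj : Function.Injective (fun j : ℤ => r + M * j) := by
    intro a b hab
    have : M * a = M * b := by simpa using hab
    exact mul_left_cancel₀ hM.ne' this
  rw [h, Finset.card_image_of_injective _ hinj, Int.card_Ico]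
  have hle : ⌈(A - r) / M⌉ ≤ ⌈(B - r) / M⌉ := by
    refine Int.ceil_mono ?_
    gcongr
  have hc : (((⌈(B - r) / M⌉ - ⌈(A - r) / M⌉).toNat : ℕ) : ℝ) =
      (⌈(B - r) / M⌉ : ℝ) - (⌈(A - r) / M⌉ : ℝ) := by
    have : (((⌈(B - r) / M⌉ - ⌈(A - r) / M⌉).toNat : ℕ) : ℤ) =
      ⌈(B - r) / M⌉ - ⌈(A - r) / M⌉ := Int.toNat_of_nonneg (by omega)
    exact_mod_cast this
  rw [hc]
  have e1 := Int.le_ceil ((A - r) / M)
  have e2 := Int.ceil_lt_add_one ((A - r) / M)
  have e3 := Int.le_ceil ((B - r) / M)
  have e4 := Int.ceil_lt_add_one ((B - r) / M)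
  have e5 : (B - A) / M = (B - r) / M - (A - r) / M := by ring
  rw [e5, abs_le]
  constructor <;> linarith

theorem ln_pos {m o H : ℕ} (hH : 1 ≤ H) : 0 < ln m o H := by
  unfold ln
  have : (0 : ℝ) < H := by exact_mod_cast hH
  positivity

theorem mass (h : S_Cls) : S_Mass := by
  obtain ⟨hcl, -, -, -⟩ := h
  intro m μ H o x hH
  have hln : 0 < ln m o H := ln_pos hH
  have hM : (0 : ℝ) < 3 ^ μ := by positivity
  refine ⟨fun z => ⟨?_, ?_⟩, fun z => ?_, ?_⟩
  · unfold den om
    positivity
  · unfold den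
    refine mul_le_mul_of_nonneg_right ?_ (by positivity)
    unfold om
    rw [← card_ones m o]
    gcongr
    exact fun hv => hv.1
  · unfold den om
    rw [show (z + 3 ^ μ) % 3 ^ μ = z % 3 ^ μ from by simp]
  · set W := (words m).filter (fun v => ones v = o) with hW
    have hWc : (W.card : ℝ) = m.choose o := by rw [hW, card_ones]
    have h1 : ∀ z : ℤ, om m μ o z = (∑ v ∈ W, if z % 3 ^ μ = cl μ v then (1 : ℝ) else 0) / 2 ^ m := by
      intro z
      unfold om
      congr 1
      rw [Finset.sum_ite, Finset.sum_const_zero, add_zero, Finset.sum_const, nsmul_eq_mul, mul_one,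
        hW, Finset.filter_filter]
      congr 2
      ext v
      simp only [eq_comm]
    have h2 : ∑ z ∈ Jw m o H x, den m μ H o z =
        (∑ v ∈ W, (((Jw m o H x).filter (fun z => z % 3 ^ μ = cl μ v)).card : ℝ) * (3 ^ μ / ln m o H)) / 2 ^ m := by
      unfold den
      simp only [h1]
      rw [← Finset.sum_mul, ← Finset.sum_div, Finset.sum_comm, ← Finset.sum_mul]
      have : ∀ v ∈ W, (∑ z ∈ Jw m o H x, if z % 3 ^ μ = cl μ v then (1 : ℝ) else 0) =
          (((Jw m o H x).filter (fun z => z % 3 ^ μ = cl μ v)).card : ℝ) := by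
        intro v _
        rw [Finset.card_filter]
        push_cast
        rfl
      rw [Finset.sum_congr rfl this]
      ring
    have h3 : ∀ v ∈ W, |(((Jw m o H x).filter (fun z => z % 3 ^ μ = cl μ v)).card : ℝ) * (3 ^ μ / ln m o H) - 1| ≤
        3 ^ μ / ln m o H := by
      intro v _
      have h4 := card_class ((x : ℝ) * 3 ^ o / 2 ^ m) (((x : ℝ) + H) * 3 ^ o / 2 ^ m) (by
        gcongr
        linarith [(Nat.cast_nonneg H : (0 : ℝ) ≤ H)]) (3 ^ μ) (cl μ v) (hcl μ v).1 (hcl μ v).2
      have h5 : (((x : ℝ) + H) * 3 ^ o / 2 ^ m - (x : ℝ) * 3 ^ o / 2 ^ m) = ln m o H := by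
        unfold ln
        ring
      rw [h5] at h4
      push_cast at h4
      have h6 : (((Jw m o H x).filter (fun z => z % 3 ^ μ = cl μ v)).card : ℝ) * (3 ^ μ / ln m o H) - 1 =
          ((((Jw m o H x).filter (fun z => z % 3 ^ μ = cl μ v)).card : ℝ) - ln m o H / 3 ^ μ) *
            (3 ^ μ / ln m o H) := by
        field_simp
      rw [h6, abs_mul, abs_of_pos (div_pos hM hln)]
      exact mul_le_of_le_one_left (div_pos hM hln).le h4
    have h7 : ∑ z ∈ Jw m o H x, den m μ H o z - (m.choose o : ℝ) / 2 ^ m =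
        (∑ v ∈ W, ((((Jw m o H x).filter (fun z => z % 3 ^ μ = cl μ v)).card : ℝ) * (3 ^ μ / ln m o H) - 1)) / 2 ^ m := by
      rw [h2, Finset.sum_sub_distrib, Finset.sum_const, nsmul_eq_mul, mul_one, hWc]
      ring
    rw [h7, abs_div, abs_of_pos (by positivity : (0 : ℝ) < 2 ^ m)]
    have h8 : |∑ v ∈ W, ((((Jw m o H x).filter (fun z => z % 3 ^ μ = cl μ v)).card : ℝ) * (3 ^ μ / ln m o H) - 1)| ≤
        (m.choose o : ℝ) * (3 ^ μ / ln m o H) := by
      refine (Finset.abs_sum_le_sum_abs _ _).trans ((Finset.sum_le_sum h3).trans ?_)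
      rw [Finset.sum_const, nsmul_eq_mul, hWc]
    calc |∑ v ∈ W, ((((Jw m o H x).filter (fun z => z % 3 ^ μ = cl μ v)).card : ℝ) * (3 ^ μ / ln m o H) - 1)| / 2 ^ m
        ≤ ((m.choose o : ℝ) * (3 ^ μ / ln m o H)) / 2 ^ m := by gcongr
      _ = _ := by ring

end Pool.Agent.Q195.BH.Mass
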