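import Pool.Agent.Q74.BH.Stm

set_option autoImplicit false

/-! # Project BH: products of close laws are close -/

namespace Pool.Agent.Q195.BH.ProdK

open Finset Pool.Agent.Q74.BH

theorem sum_pi_succ {ι : Type} (I : Finset ι) (k : ℕ) (f : (Fin (k + 1) → ι) → ℝ) :
    ∑ i ∈ Fintype.piFinset (fun _ : Fin (k + 1) => I), f i =
      ∑ x ∈ I, ∑ i ∈ Fintype.piFinset (fun _ : Fin k => I), f (Fin.cons x i) := by
  rw [← Finset.sum_product']
  refine Finset.sum_bij' (fun i _ => (i 0, Fin.tail i)) (fun y _ => Fin.cons y.1 y.2) ?_ ?_ ?_ ?_ ?_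
  · intro i hi
    rw [Fintype.mem_piFinset] at hi
    rw [Finset.mem_product, Fintype.mem_piFinset]
    exact ⟨hi 0, fun l => hi l.succ⟩
  · rintro ⟨x, i⟩ hi
    rw [Finset.mem_product, Fintype.mem_piFinset] at hi
    rw [Fintype.mem_piFinset]
    intro l
    refine Fin.cases ?_ (fun l => ?_) l
    · exact hi.1
    · exact hi.2 l
  · intro i _
    exact Fin.cons_self_tail i
  · rintro ⟨x, i⟩ _
    simp
  · intro i _
    rw [Fin.cons_self_tail]

/-- the product average -/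
noncomputable def SS {α ι : Type} (I : Finset ι) (a : ι → ℝ) (p : ι → α) (k : ℕ)
    (Ψ : (Fin k → α) → ℝ) : ℝ :=
  ∑ i ∈ Fintype.piFinset (fun _ : Fin k => I), (∏ l, a (i l)) * Ψ (fun l => p (i l))

theorem SS_succ {α ι : Type} (I : Finset ι) (a : ι → ℝ) (p : ι → α) (k : ℕ)
    (Ψ : (Fin (k + 1) → α) → ℝ) :
    SS I a p (k + 1) Ψ = ∑ x ∈ I, a x * SS I a p k (fun v => Ψ (Fin.cons (p x) v)) := by
  unfold SS
  rw [sum_pi_succ]
  refine Finset.sum_congr rfl fun x _ => ?_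
  rw [Finset.mul_sum]
  refine Finset.sum_congr rfl fun i _ => ?_
  rw [Fin.prod_univ_succ]
  have h : (fun l => p ((Fin.cons x i : Fin (k + 1) → ι) l)) = Fin.cons (p x) (fun l => p (i l)) := by
    funext l
    refine Fin.cases ?_ (fun l => ?_) l <;> simp
  rw [h]
  simp only [Fin.cons_zero, Fin.cons_succ]
  ring

theorem SS_abs {α ι : Type} (I : Finset ι) (a : ι → ℝ) (p : ι → α) (ha : ∀ i ∈ I, 0 ≤ a i) (k : ℕ)
    (Ψ : (Fin k → α) → ℝ) (hΨ : ∀ v, |Ψ v| ≤ 1) : |SS I a p k Ψ| ≤ (∑ i ∈ I, a i) ^ k := by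
  unfold SS
  calc |∑ i ∈ Fintype.piFinset (fun _ : Fin k => I), (∏ l, a (i l)) * Ψ (fun l => p (i l))|
      ≤ ∑ i ∈ Fintype.piFinset (fun _ : Fin k => I), |(∏ l, a (i l)) * Ψ (fun l => p (i l))| :=
        Finset.abs_sum_le_sum_abs _ _
    _ ≤ ∑ i ∈ Fintype.piFinset (fun _ : Fin k => I), ∏ l, a (i l) := by
        refine Finset.sum_le_sum fun i hi => ?_
        rw [Fintype.mem_piFinset] at hi
        have h0 : 0 ≤ ∏ l, a (i l) := Finset.prod_nonneg fun l _ => ha _ (hi l)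
        rw [abs_mul, abs_of_nonneg h0]
        exact mul_le_of_le_one_right h0 (hΨ _)
    _ = (∑ i ∈ I, a i) ^ k := by
        have h := Finset.prod_univ_sum (fun _ : Fin k => I) (fun _ i => a i)
        rw [← h]
        simp

theorem prodK : S_ProdK := by
  intro α ι κ I J a b p q ε hε ha ha1 hb hF k
  have hb1 : ∑ j ∈ J, b j ≤ 1 + ε := by
    have h := hF (fun _ => 1) (fun _ => by simp)
    simp only [mul_one] at h
    have := abs_le.1 h
    linarith [this.1]
  have hb0 : 0 ≤ ∑ j ∈ J, b j := Finset.sum_nonneg hb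
  have ha0 : 0 ≤ ∑ i ∈ I, a i := Finset.sum_nonneg ha
  induction k with
  | zero =>
    intro Ψ _
    have e1 : ∀ (ι' : Type) (I' : Finset ι') (a' : ι' → ℝ) (p' : ι' → α), SS I' a' p' 0 Ψ = Ψ (fun l => l.elim0) := by
      intro ι' I' a' p'
      unfold SS
      have : Fintype.piFinset (fun _ : Fin 0 => I') = {fun l => l.elim0} := by
        ext i
        simp only [Fintype.mem_piFinset, Finset.mem_singleton]
        exact ⟨fun _ => funext fun l => l.elim0, fun _ l => l.elim0⟩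
      rw [this, Finset.sum_singleton]
      simp only [Finset.univ_eq_empty, Finset.prod_empty, one_mul]
      congr 1
      funext l
      exact l.elim0
    show |SS I a p 0 Ψ - SS J b q 0 Ψ| ≤ _
    rw [e1, e1]
    simp
  | succ k ih =>
    intro Ψ hΨ
    show |SS I a p (k + 1) Ψ - SS J b q (k + 1) Ψ| ≤ _
    have ih' : ∀ Ψ : (Fin k → α) → ℝ, (∀ v, |Ψ v| ≤ 1) →
        |SS I a p k Ψ - SS J b q k Ψ| ≤ k * ε * (1 + ε) ^ k := ih
    rw [SS_succ, SS_succ]
    set G : α → ℝ := fun u => SS J b q k (fun v => Ψ (Fin.cons u v)) with hG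
    have hpos : 0 < (1 + ε) ^ k := by positivity
    have hGb : ∀ u, |G u| ≤ (1 + ε) ^ k := fun u =>
      (SS_abs J b q hb k _ fun v => hΨ _).trans (pow_le_pow_left₀ hb0 hb1 k)
    have h1 : |∑ x ∈ I, a x * (SS I a p k (fun v => Ψ (Fin.cons (p x) v)) - G (p x))| ≤
        k * ε * (1 + ε) ^ k := by
      calc |∑ x ∈ I, a x * (SS I a p k (fun v => Ψ (Fin.cons (p x) v)) - G (p x))|
          ≤ ∑ x ∈ I, |a x * (SS I a p k (fun v => Ψ (Fin.cons (p x) v)) - G (p x))| :=
            Finset.abs_sum_le_sum_abs _ _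
        _ ≤ ∑ x ∈ I, a x * (k * ε * (1 + ε) ^ k) := by
            refine Finset.sum_le_sum fun x hx => ?_
            rw [abs_mul, abs_of_nonneg (ha x hx)]
            exact mul_le_mul_of_nonneg_left (ih' _ fun v => hΨ _) (ha x hx)
        _ = (∑ x ∈ I, a x) * (k * ε * (1 + ε) ^ k) := by rw [Finset.sum_mul]
        _ ≤ 1 * (k * ε * (1 + ε) ^ k) := mul_le_mul_of_nonneg_right ha1 (by positivity)
        _ = _ := one_mul _
    have h2 : |∑ x ∈ I, a x * G (p x) - ∑ y ∈ J, b y * G (q y)| ≤ ε * (1 + ε) ^ k := by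
      have h := hF (fun u => G u / (1 + ε) ^ k) (fun u => by
        rw [abs_div, abs_of_pos hpos, div_le_one hpos]
        exact hGb u)
      have e : ∑ i ∈ I, a i * (G (p i) / (1 + ε) ^ k) - ∑ j ∈ J, b j * (G (q j) / (1 + ε) ^ k) =
          (∑ x ∈ I, a x * G (p x) - ∑ y ∈ J, b y * G (q y)) / (1 + ε) ^ k := by
        rw [sub_div, Finset.sum_div, Finset.sum_div]
        congr 1 <;> exact Finset.sum_congr rfl fun _ _ => by ring
      rw [e, abs_div, abs_of_pos hpos, div_le_iff₀ hpos] at h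
      exact h
    have e : ∑ x ∈ I, a x * SS I a p k (fun v => Ψ (Fin.cons (p x) v)) - ∑ y ∈ J, b y * G (q y) =
        ∑ x ∈ I, a x * (SS I a p k (fun v => Ψ (Fin.cons (p x) v)) - G (p x)) +
          (∑ x ∈ I, a x * G (p x) - ∑ y ∈ J, b y * G (q y)) := by
      simp only [mul_sub, Finset.sum_sub_distrib]
      ring
    show |∑ x ∈ I, a x * SS I a p k (fun v => Ψ (Fin.cons (p x) v)) - ∑ y ∈ J, b y * G (q y)| ≤ _
    rw [e]
    calc |∑ x ∈ I, a x * (SS I a p k (fun v => Ψ (Fin.cons (p x) v)) - G (p x)) +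
          (∑ x ∈ I, a x * G (p x) - ∑ y ∈ J, b y * G (q y))|
        ≤ k * ε * (1 + ε) ^ k + ε * (1 + ε) ^ k := (abs_add_le _ _).trans (add_le_add h1 h2)
      _ = ((k + 1 : ℕ) : ℝ) * ε * (1 + ε) ^ k := by push_cast; ring
      _ ≤ ((k + 1 : ℕ) : ℝ) * ε * (1 + ε) ^ (k + 1) := by
          refine mul_le_mul_of_nonneg_left (pow_le_pow_right₀ (by linarith) (Nat.le_succ k)) ?_
          positivity

end Pool.Agent.Q195.BH.ProdK
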